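import Pool.Agent.W345.SP.Stm

set_option autoImplicit false

open Set MeasureTheory Filter Topology

namespace Pool.Agent.W584.SPB

open Pool.Agent.W345.SP

/-- the isometry -/
noncomputable def toE (t : ℝ) : E 1 := WithLp.toLp 2 (fun _ => t)

lemma norm_toE (t : ℝ) : ‖toE t‖ = |t| := by
  rw [EuclideanSpace.norm_eq]
  simp [toE, Real.sqrt_sq_eq_abs]

lemma toE_coord (x : E 1) : toE (x 0) = x := by
  ext i
  fin_cases i
  rfl

lemma coord_toE (t : ℝ) : (toE t) 0 = t := rfl

lemma cont_toE : Continuous toE := by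
  unfold toE
  exact (PiLp.continuous_toLp 2 _).comp (continuous_pi fun _ => continuous_id)

lemma cont_coord : Continuous (fun x : E 1 => x 0) := by fun_prop

noncomputable def hom : E 1 ≃ₜ ℝ where
  toFun x := x 0
  invFun t := toE t
  left_inv x := toE_coord x
  right_inv t := coord_toE t
  continuous_toFun := cont_coord
  continuous_invFun := cont_toE

lemma edist_toE (s t : ℝ) : edist (toE s) (toE t) = edist s t := by
  rw [edist_dist, edist_dist, dist_eq_norm, dist_eq_norm]
  have : toE s - toE t = toE (s - t) := by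
    ext i; fin_cases i; rfl
  rw [this, norm_toE, Real.norm_eq_abs]

lemma vol_pre (U : Set (E 1)) (hU : IsOpen U) : volume (toE ⁻¹' U) = volume U := by
  have h1 : MeasurePreserving (fun x : E 1 => (MeasurableEquiv.funUnique (Fin 1) ℝ)
      (WithLp.ofLp x)) volume volume :=
    (volume_preserving_funUnique (Fin 1) ℝ).comp (PiLp.volume_preserving_ofLp (Fin 1))
  have h2 := h1.measure_preimage (s := toE ⁻¹' U)
    ((hU.preimage cont_toE).measurableSet.nullMeasurableSet)
  rw [← h2]
  congr 1
  ext x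
  simp only [mem_preimage]
  have : toE ((MeasurableEquiv.funUnique (Fin 1) ℝ) (WithLp.ofLp x)) = x := by
    ext i
    fin_cases i
    rfl
  rw [this]

/-- the map on the line -/
noncomputable def FV (V : Set ℝ) (t : ℝ) : ℝ := (volume (V ∩ Iic t)).toReal - 1

section
variable {V : Set ℝ} (hV : IsOpen V) (h2 : volume V ≤ 2)
include hV h2

lemma fin_inter (A : Set ℝ) : volume (V ∩ A) ≠ ⊤ :=
  ne_top_of_le_ne_top (by norm_num) ((measure_mono inter_subset_left).trans h2)

lemma FV_sub {x y : ℝ} (hxy : x ≤ y) :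
    FV V y - FV V x = (volume (V ∩ Ioc x y)).toReal := by
  have h : volume (V ∩ Iic y) = volume (V ∩ Iic x) + volume (V ∩ Ioc x y) := by
    rw [← measure_union]
    · congr 1
      rw [← inter_union_distrib_left, Iic_union_Ioc_eq_Iic hxy]
    · exact Disjoint.mono inter_subset_right inter_subset_right (Iic_disjoint_Ioc le_rfl)
    · exact hV.measurableSet.inter measurableSet_Ioc
  unfold FV
  rw [h, ENNReal.toReal_add (fin_inter hV h2 _) (fin_inter hV h2 _)]
  ring

lemma FV_abs (t : ℝ) : |FV V t| ≤ 1 := by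
  unfold FV
  have h1 : (volume (V ∩ Iic t)).toReal ≤ 2 := by
    have := ENNReal.toReal_mono (by norm_num : (2 : ENNReal) ≠ ⊤)
      ((measure_mono (inter_subset_left : V ∩ Iic t ⊆ V)).trans h2)
    simpa using this
  have h0 : 0 ≤ (volume (V ∩ Iic t)).toReal := ENNReal.toReal_nonneg
  rw [abs_le]
  constructor <;> linarith

lemma FV_mono : Monotone (FV V) := by
  intro x y hxy
  have := FV_sub hV h2 hxy
  have h0 : 0 ≤ (volume (V ∩ Ioc x y)).toReal := ENNReal.toReal_nonneg
  linarith

lemma FV_lip {x y : ℝ} (hxy : x ≤ y) : FV V y - FV V x ≤ y - x := by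
  rw [FV_sub hV h2 hxy]
  have h1 : (volume (V ∩ Ioc x y)).toReal ≤ (volume (Ioc x y)).toReal :=
    ENNReal.toReal_mono (by simp) (measure_mono inter_subset_right)
  rw [Real.volume_Ioc, ENNReal.toReal_ofReal (by linarith)] at h1
  exact h1

lemma FV_trans {x y : ℝ} (hxy : x ≤ y) (h : Icc x y ⊆ V) : FV V y - FV V x = y - x := by
  rw [FV_sub hV h2 hxy, inter_eq_right.mpr (Ioc_subset_Icc_self.trans h), Real.volume_Ioc,
    ENNReal.toReal_ofReal (by linarith)]

lemma FV_cont : Continuous (FV V) := by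
  have : LipschitzWith 1 (FV V) := by
    apply LipschitzWith.of_dist_le_mul
    intro x y
    rw [Real.dist_eq, Real.dist_eq, NNReal.coe_one, one_mul]
    rcases le_total x y with h | h
    · have h1 := FV_lip hV h2 h
      have h3 := FV_mono hV h2 h
      rw [abs_sub_comm, abs_of_nonneg (by linarith), abs_sub_comm, abs_of_nonneg (by linarith)]
      exact h1
    · have h1 := FV_lip hV h2 h
      have h3 := FV_mono hV h2 h
      rw [abs_of_nonneg (by linarith), abs_of_nonneg (by linarith)]
      exact h1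
  exact this.continuous

lemma FV_lt {x y : ℝ} (hx : x ∈ V) (hxy : x < y) : FV V x < FV V y := by
  have h := FV_sub hV h2 hxy.le
  have hpos : 0 < volume (V ∩ Ioc x y) := by
    have h1 : 0 < volume (V ∩ Ioo x y) := by
      apply IsOpen.measure_pos (μ := (volume : Measure ℝ)) (hV.inter isOpen_Ioo)
      have hmem : V ∈ 𝓝[>] x := mem_nhdsWithin_of_mem_nhds (hV.mem_nhds hx)
      have h3 : V ∩ Ioo x y ∈ 𝓝[>] x := inter_mem hmem (Ioo_mem_nhdsGT hxy)
      exact nonempty_of_mem h3
    exact h1.trans_le (measure_mono (inter_subset_inter_right _ Ioo_subset_Ioc_self))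
  have := ENNReal.toReal_pos hpos.ne' (fin_inter hV h2 _)
  linarith

lemma FV_inj {x y : ℝ} (hx : x ∈ V) (hy : y ∈ V) (h : FV V x = FV V y) : x = y := by
  rcases lt_trichotomy x y with h1 | h1 | h1
  · exact absurd h (FV_lt hV h2 hx h1).ne
  · exact h1
  · exact absurd h (FV_lt hV h2 hy h1).ne'

lemma FV_edist {x y : ℝ} (h : uIcc x y ⊆ V) : edist (FV V x) (FV V y) = edist x y := by
  rw [edist_dist, edist_dist, Real.dist_eq, Real.dist_eq]
  rcases le_total x y with h1 | h1
  · rw [uIcc_of_le h1] at h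
    have := FV_trans hV h2 h1 h
    rw [abs_sub_comm, this, abs_sub_comm]
  · rw [uIcc_of_ge h1] at h
    have := FV_trans hV h2 h1 h
    rw [this]

lemma FV_nhds {x : ℝ} (hx : x ∈ V) : 𝓝 (FV V x) ≤ map (FV V) (𝓝 x) := by
  obtain ⟨δ, hδ, hball⟩ := Metric.isOpen_iff.mp hV x hx
  have hev : ∀ᶠ u in 𝓝 x, FV V u = u + (FV V x - x) := by
    filter_upwards [Metric.ball_mem_nhds x hδ] with u hu
    have hsub : uIcc u x ⊆ V := by
      refine Subset.trans ?_ hball
      have : OrdConnected (Metric.ball x δ) := by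
        rw [Real.ball_eq_Ioo]; exact ordConnected_Ioo
      exact this.uIcc_subset hu (Metric.mem_ball_self hδ)
    rcases le_total u x with h1 | h1
    · rw [uIcc_of_le h1] at hsub
      have := FV_trans hV h2 h1 hsub
      linarith
    · rw [uIcc_of_ge h1] at hsub
      have := FV_trans hV h2 h1 hsub
      linarith
  have h3 : map (FV V) (𝓝 x) = map (fun u => u + (FV V x - x)) (𝓝 x) := Filter.map_congr hev
  rw [h3]
  have h4 : map (fun u => u + (FV V x - x)) (𝓝 x) = 𝓝 (x + (FV V x - x)) :=
    (Homeomorph.addRight (FV V x - x)).map_nhds_eq x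
  rw [h4]
  simp

lemma FV_emb : IsEmbedding (fun x : V => FV V x) := by
  apply IsOpenEmbedding.isEmbedding
  apply IsOpenEmbedding.of_continuous_injective_isOpenMap
  · exact (FV_cont hV h2).comp continuous_subtype_val
  · intro x y h
    exact Subtype.ext (FV_inj hV h2 x.2 y.2 h)
  · rw [isOpenMap_iff_nhds_le]
    intro x
    have h1 := FV_nhds hV h2 x.2
    rw [← map_nhds_subtype_coe_eq_nhds x.2 (hV.mem_nhds x.2)] at h1
    exact h1

end

theorem one : S_ONE := by
  intro U hU hvol
  have hV : IsOpen (toE ⁻¹' U) := hU.preimage cont_toE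
  have h2 : volume (toE ⁻¹' U) ≤ 2 := by rw [vol_pre U hU]; exact hvol
  have hmem : ∀ x : E 1, x ∈ U → x 0 ∈ toE ⁻¹' U := by
    intro x hx
    rw [mem_preimage, toE_coord]
    exact hx
  refine ⟨fun x => toE (FV (toE ⁻¹' U) (x 0)), ?_, ?_, ?_⟩
  · have h3 : IsEmbedding (fun x : U => (⟨(x : E 1) 0, hmem x x.2⟩ : (toE ⁻¹' U : Set ℝ))) := by
      apply IsEmbedding.codRestrict
      exact hom.isEmbedding.comp IsEmbedding.subtypeVal
    have h4 := (FV_emb hV h2).comp h3
    have h5 := hom.symm.isEmbedding.comp h4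
    exact h5
  · intro x _
    rw [norm_toE]
    exact FV_abs hV h2 _
  · intro a b γ hab hγ hγU _
    have hc : ContinuousOn (fun t => γ t 0) (Icc a b) := cont_coord.comp_continuousOn hγ
    have hconn : IsPreconnected ((fun t => γ t 0) '' Icc a b) :=
      isPreconnected_Icc.image _ hc
    have hoc : OrdConnected ((fun t => γ t 0) '' Icc a b) := hconn.ordConnected
    have hsub : (fun t => γ t 0) '' Icc a b ⊆ toE ⁻¹' U := by
      rintro _ ⟨t, ht, rfl⟩
      exact hmem _ (hγU t ht)
    have key : ∀ s ∈ Icc a b, ∀ t ∈ Icc a b,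
        edist (toE (FV (toE ⁻¹' U) (γ s 0))) (toE (FV (toE ⁻¹' U) (γ t 0)))
          = edist (γ s) (γ t) := by
      intro s hs t ht
      rw [edist_toE, FV_edist hV h2
        ((hoc.uIcc_subset (mem_image_of_mem _ hs) (mem_image_of_mem _ ht)).trans hsub),
        ← edist_toE, toE_coord, toE_coord]
    unfold eVariationOn
    apply le_of_eq
    apply iSup_congr
    intro p
    apply Finset.sum_congr rfl
    intro i _
    exact (key _ (p.2.2.2 (i + 1)) _ (p.2.2.2 i)).symm

end Pool.Agent.W584.SPB
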